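import Mathlib
import Pool.Agent.H151.Combi

/-!
# Paracompact subspaces of products that fill the countable subproducts
-/

open Set Filter Topology Cardinal

universe u v

namespace Pool.Agent.Q151.Fill

/-- `D` fills all countable subproducts of `∏ X i`: for each nonempty countable set `J` of indices
every point of `∏_{i ∈ J} X i` is the projection of a point of `D`. -/
def FillsCountable {I : Type u} {X : I → Type v} (D : Set (∀ i, X i)) : Prop :=
  ∀ J : Set I, J.Nonempty → J.Countable → ∀ x : (∀ i : J, X i), ∃ d ∈ D, ∀ i : J, d i = x i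

/-- the well-order of type `ω₁` -/
abbrev W : Type := (Order.succ ℵ₀).ord.ToType

lemma W_Iio (α : W) : (Iio α).Countable := by
  have := mk_Iio_lt (α := W) α (by
    rw [mk_ord_toType]
    exact (Ordinal.type_toType _).symm)
  rw [mk_ord_toType] at this
  exact le_aleph0_iff_set_countable.1 (Order.lt_succ_iff.1 this)

lemma W_Iic (α : W) : (Iic α).Countable := by
  have h5 : (Iic α : Set W) ⊆ insert α (Iio α) := by
    intro t ht
    rcases eq_or_lt_of_le (mem_Iic.1 ht) with h | h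
    · exact Or.inl h
    · exact Or.inr h
  exact ((W_Iio α).insert α).mono h5

lemma W_unc : ¬ (Set.univ : Set W).Countable := by
  intro h
  have h1 := le_aleph0_iff_set_countable.2 h
  rw [mk_univ, mk_ord_toType] at h1
  exact absurd h1 (not_le.2 (Order.lt_succ ℵ₀))

lemma unc_Ioi {S : Set W} (hS : ¬ S.Countable) (β : W) : ¬ (S ∩ Ioi β).Countable := by
  intro h
  apply hS
  refine (h.union (W_Iic β)).mono fun x hx => ?_
  rcases le_or_gt x β with h | h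
  · exact Or.inr h
  · exact Or.inl ⟨hx, h⟩

lemma unc_nonempty {S : Set W} (hS : ¬ S.Countable) : S.Nonempty := by
  by_contra h
  rw [not_nonempty_iff_eq_empty] at h
  exact hS (by rw [h]; exact countable_empty)

lemma exists_rec {β : Type*} (Φ : ∀ α : W, (∀ ξ, ξ < α → β) → β → Prop)
    (h : ∀ α f, ∃ b, Φ α f b) : ∃ g : W → β, ∀ α, Φ α (fun ξ _ => g ξ) (g α) := by
  choose c hc using h
  refine ⟨(wellFounded_lt (α := W)).fix (fun α rec => c α rec), fun α => ?_⟩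
  rw [(wellFounded_lt (α := W)).fix_eq]
  exact hc α _

lemma exists_enum (α : W) : ∃ e : W → ℕ, InjOn e (Iio α) := by
  have := (W_Iio α).to_subtype
  obtain ⟨f, hf⟩ := exists_injective_nat (Iio α)
  classical
  refine ⟨fun ξ => if h : ξ < α then f ⟨ξ, h⟩ else 0, fun ξ hξ η hη h => ?_⟩
  simp only at h
  rw [dif_pos (mem_Iio.1 hξ), dif_pos (mem_Iio.1 hη)] at h
  exact congrArg Subtype.val (hf h)

variable {I : Type u} {X : I → Type v} [∀ i, TopologicalSpace (X i)] {D : Set (∀ i, X i)}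

/-- the coordinates on which a neighbourhood depends -/
lemma exists_supp {O : Set (∀ i, X i)} (hO : IsOpen O) {f : ∀ i, X i} (hf : f ∈ O) :
    ∃ F : Finset I, ∀ g : (∀ i, X i), (∀ i ∈ F, g i = f i) → g ∈ O := by
  obtain ⟨F, u, hu, hsub⟩ := isOpen_pi_iff.1 hO f hf
  exact ⟨F, fun g hg => hsub fun i hi => by rw [hg i hi]; exact (hu i hi).2⟩

/-- locally finite refinements in terms of open sets of the product -/
lemma exists_refinement [ParacompactSpace D] (U : D → Set (∀ i, X i)) (hU : ∀ a, IsOpen (U a))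
    (hxU : ∀ x : D, ∃ a, (x : ∀ i, X i) ∈ U a) : ∃ V : D → Set (∀ i, X i),
      (∀ a, IsOpen (V a)) ∧ (∀ x ∈ D, ∃ a, x ∈ V a) ∧ (∀ a, ∀ x ∈ D, x ∈ V a → x ∈ U a) ∧
      ∀ p ∈ D, ∃ N : Set (∀ i, X i), IsOpen N ∧ p ∈ N ∧
        {a : D | ∃ x ∈ D, x ∈ V a ∧ x ∈ N}.Finite := by
  obtain ⟨v, hv1, hv2, hv3, hv4⟩ := precise_refinement (fun a : D => ((↑) : D → ∀ i, X i) ⁻¹' U a)
    (fun a => (hU a).preimage continuous_subtype_val) (by
      rw [eq_univ_iff_forall]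
      intro x
      obtain ⟨a, ha⟩ := hxU x
      exact mem_iUnion.2 ⟨a, ha⟩)
  choose V hV1 hV2 using fun a => isOpen_induced_iff.1 (hv1 a)
  refine ⟨V, hV1, ?_, ?_, ?_⟩
  · intro x hx
    have := mem_iUnion.1 (hv2 ▸ mem_univ (⟨x, hx⟩ : D))
    obtain ⟨a, ha⟩ := this
    rw [← hV2 a] at ha
    exact ⟨a, ha⟩
  · intro a x hx hxa
    have : (⟨x, hx⟩ : D) ∈ v a := by rw [← hV2 a]; exact hxa
    exact hv4 a this
  · intro p hp
    obtain ⟨N, hN, hfin⟩ := hv3 ⟨p, hp⟩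
    obtain ⟨N', hN'N, hN', hpN'⟩ := mem_nhds_iff.1 hN
    obtain ⟨O, hO, rfl⟩ := isOpen_induced_iff.1 hN'
    refine ⟨O, hO, hpN', hfin.subset ?_⟩
    rintro a ⟨x, hx, hxa, hxO⟩
    refine ⟨⟨x, hx⟩, ?_, hN'N hxO⟩
    rw [← hV2 a]
    exact hxa

/-- `J` is a set of indices with a sequence in `∏_{i ∈ J} X i` without cluster points. -/
def Bad (X : I → Type v) [∀ i, TopologicalSpace (X i)] (J : Set I) : Prop :=
  ∃ w : ℕ → (∀ i : J, X i), ∀ z, ¬ MapClusterPt z atTop w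

/-- Case B: there are bad countable sets outside each countable set of indices. -/
theorem caseB (hD : FillsCountable D) (hDne : D.Nonempty) [hp : ParacompactSpace D]
    (hbad : ∀ K : Set I, K.Countable → ∃ J : Set I, J.Countable ∧ Disjoint K J ∧ Bad X J) :
    False := by
  classical
  -- the blocks
  obtain ⟨J, hJ⟩ := exists_rec (fun α (f : ∀ ξ, ξ < α → Set I) (b : Set I) =>
    (∀ ξ (h : ξ < α), (f ξ h).Countable) → b.Countable ∧ (∀ ξ (h : ξ < α), Disjoint (f ξ h) b) ∧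
      Bad X b) (by
    intro α f
    by_cases hf : ∀ ξ (h : ξ < α), (f ξ h).Countable
    · have hc : (⋃ ξ, ⋃ h : ξ < α, f ξ h).Countable := by
        have : (⋃ ξ, ⋃ h : ξ < α, f ξ h) = ⋃ ξ : Iio α, f ξ.1 ξ.2 := by
          ext i; simp
        rw [this]
        have := (W_Iio α).to_subtype
        exact countable_iUnion fun ξ => hf ξ.1 ξ.2
      obtain ⟨b, hb1, hb2, hb3⟩ := hbad _ hc
      refine ⟨b, fun _ => ⟨hb1, fun ξ h => hb2.mono_left ?_, hb3⟩⟩
      exact subset_iUnion₂_of_subset ξ h subset_rfl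
    · exact ⟨∅, fun h => absurd h hf⟩)
  have hJc : ∀ α, (J α).Countable := by
    intro α
    induction α using WellFoundedLT.induction with
    | ind α ih => exact (hJ α fun ξ h => ih ξ h).1
  have hJd' : ∀ ξ α, ξ < α → Disjoint (J ξ) (J α) := fun ξ α h => (hJ α fun ξ _ => hJc ξ).2.1 ξ h
  have hJd : ∀ ξ η i, i ∈ J ξ → i ∈ J η → ξ = η := by
    intro ξ η i h1 h2
    rcases lt_trichotomy ξ η with h | h | h
    · exact absurd h2 (Set.disjoint_left.1 (hJd' ξ η h) h1)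
    · exact h
    · exact absurd h1 (Set.disjoint_left.1 (hJd' η ξ h) h2)
  choose w hw using fun α => (hJ α fun ξ _ => hJc ξ).2.2
  choose e he using exists_enum
  -- the cover
  have hcover : ∀ x : D, ∃ (Ξ : Finset W) (O : Set (∀ i, X i)), IsOpen O ∧ (x : ∀ i, X i) ∈ O ∧
      ∀ α, (∀ ξ ∈ Ξ, ξ < α) → ∀ d : (∀ i, X i), (∀ ξ < α, ∀ i : J ξ, d i = w ξ (e α ξ) i) →
        d ∉ O := by
    intro x
    have h1 : ∀ ξ, ∃ A : Finset ℕ, ∃ O : Set (∀ i : J ξ, X i), IsOpen O ∧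
        (fun i : J ξ => (x : ∀ i, X i) i) ∈ O ∧ ∀ n, w ξ n ∈ O → n ∈ A := by
      intro ξ
      have h2 := hw ξ (fun i : J ξ => (x : ∀ i, X i) i)
      rw [mapClusterPt_iff_frequently] at h2
      push Not at h2
      obtain ⟨s, hs, hs'⟩ := h2
      obtain ⟨m, hm⟩ := eventually_atTop.1 hs'
      obtain ⟨O, hO1, hO2, hO3⟩ := mem_nhds_iff.1 hs
      refine ⟨Finset.range m, O, hO2, hO3, fun n hn => ?_⟩
      rw [Finset.mem_range]
      by_contra hnm
      exact hm n (not_lt.1 hnm) (hO1 hn)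
    choose A O hO1 hO2 hO3 using h1
    obtain ⟨A0, hA0⟩ := H151.uncountable_fiber A Set.univ W_unc
    have hinf : {ξ | ξ ∈ (Set.univ : Set W) ∧ A ξ = A0}.Infinite := fun h => hA0 h.countable
    obtain ⟨Ξ, hΞ1, hΞ2⟩ := hinf.exists_subset_card_eq (A0.card + 1)
    refine ⟨Ξ, ⋂ ξ ∈ Ξ, (fun (d : ∀ i, X i) (i : J ξ) => d i) ⁻¹' O ξ, ?_, ?_, ?_⟩
    · refine isOpen_biInter_finset fun ξ _ => (hO1 ξ).preimage ?_
      exact continuous_pi fun i => continuous_apply _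
    · simp only [mem_iInter]
      exact fun ξ _ => hO2 ξ
    · intro α hα d hd hdO
      simp only [mem_iInter] at hdO
      have h3 : ∀ ξ ∈ Ξ, e α ξ ∈ A0 := by
        intro ξ hξ
        have h4 : w ξ (e α ξ) ∈ O ξ := by
          have := hdO ξ hξ
          have h5 : (fun i : J ξ => d i) = w ξ (e α ξ) := funext fun i => hd ξ (hα ξ hξ) i
          rw [mem_preimage, h5] at this
          exact this
        have h6 := hO3 ξ _ h4
        rw [(hΞ1 hξ).2] at h6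
        exact h6
      have h7 : Ξ.card ≤ A0.card := Finset.card_le_card_of_injOn (e α) h3
        fun ξ hξ η hη h => he α (hα ξ hξ) (hα η hη) h
      omega
  choose Ξ U hU1 hU2 hU3 using hcover
  obtain ⟨V, hV1, hV2, hV3, hV4⟩ := exists_refinement U hU1 fun x => ⟨x, hU2 x⟩
  obtain ⟨g, hg⟩ := hDne
  -- the points and their supports
  have hstep : ∀ (α : W) (K : Set I), K.Countable → ∃ (F : Finset I) (d : ∀ i, X i) (a : D), d ∈ D ∧
      (∀ ξ < α, ∀ i : J ξ, d i = w ξ (e α ξ) i) ∧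
      (∀ i ∈ K, (∀ ξ < α, i ∉ J ξ) → d i = g i) ∧ d ∈ V a ∧
      ∀ h : (∀ i, X i), (∀ i ∈ F, h i = d i) → h ∈ V a := by
    intro α K hK
    let L : Set I := (⋃ ξ : Iio α, J ξ) ∪ K
    have hLc : L.Countable := by
      have := (W_Iio α).to_subtype
      exact (countable_iUnion fun ξ : Iio α => hJc ξ).union hK
    let x : ∀ i : L, X i := fun i => if h : ∃ ξ, ξ < α ∧ (i : I) ∈ J ξ then
      w h.choose (e α h.choose) ⟨i, h.choose_spec.2⟩ else g i
    obtain ⟨d, hdD, hd⟩ : ∃ d ∈ D, ∀ i : L, d i = x i := by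
      rcases L.eq_empty_or_nonempty with h | h
      · exact ⟨g, hg, fun i => (eq_empty_iff_forall_notMem.1 h i i.2).elim⟩
      · exact hD L h hLc x
    obtain ⟨a, ha⟩ := hV2 d hdD
    obtain ⟨F, hF⟩ := exists_supp (hV1 a) ha
    refine ⟨F, d, a, hdD, ?_, ?_, ha, hF⟩
    · intro ξ hξ i
      have hi : (i : I) ∈ L := Or.inl (mem_iUnion.2 ⟨⟨ξ, hξ⟩, i.2⟩)
      have h1 := hd ⟨i, hi⟩
      have hex : ∃ ξ, ξ < α ∧ ((⟨i, hi⟩ : L) : I) ∈ J ξ := ⟨ξ, hξ, i.2⟩
      rw [h1]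
      change (if h : ∃ ξ, ξ < α ∧ ((⟨i, hi⟩ : L) : I) ∈ J ξ then
        w h.choose (e α h.choose) ⟨i, h.choose_spec.2⟩ else g i) = _
      rw [dif_pos hex]
      have hξ' : hex.choose = ξ := hJd _ _ _ hex.choose_spec.2 i.2
      have key : ∀ (η : W) (hη : (i : I) ∈ J η), η = ξ →
          w η (e α η) ⟨i, hη⟩ = w ξ (e α ξ) i := by
        rintro η hη rfl
        rfl
      exact key _ hex.choose_spec.2 hξ'
    · intro i hi hni
      have hi' : i ∈ L := Or.inr hi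
      rw [hd ⟨i, hi'⟩]
      change (if h : ∃ ξ, ξ < α ∧ ((⟨i, hi'⟩ : L) : I) ∈ J ξ then
        w h.choose (e α h.choose) ⟨i, h.choose_spec.2⟩ else g i) = _
      rw [dif_neg]
      rintro ⟨ξ, h1, h2⟩
      exact hni ξ h1 h2
  obtain ⟨F, hF⟩ := exists_rec (fun α (f : ∀ ξ, ξ < α → Finset I) (b : Finset I) =>
    ∃ (d : ∀ i, X i) (a : D), d ∈ D ∧ (∀ ξ < α, ∀ i : J ξ, d i = w ξ (e α ξ) i) ∧
      (∀ i, (∃ ξ, ∃ h : ξ < α, i ∈ f ξ h) → (∀ ξ < α, i ∉ J ξ) → d i = g i) ∧ d ∈ V a ∧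
      ∀ h : (∀ i, X i), (∀ i ∈ b, h i = d i) → h ∈ V a) (by
    intro α f
    have hc : (⋃ ξ : Iio α, (f ξ.1 ξ.2 : Set I)).Countable := by
      have := (W_Iio α).to_subtype
      exact countable_iUnion fun ξ => (f ξ.1 ξ.2).countable_toSet
    obtain ⟨F, d, a, h1, h2, h3, h4, h5⟩ := hstep α _ hc
    refine ⟨F, d, a, h1, h2, ?_, h4, h5⟩
    rintro i ⟨ξ, hξ, hi⟩ hni
    exact h3 i (mem_iUnion.2 ⟨⟨ξ, hξ⟩, hi⟩) hni)
  choose d a hdD hd1 hd2 hd3 hd4 using hF
  -- the delta system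
  obtain ⟨S, R, -, hS, hR1, hR2⟩ := H151.delta_system F Set.univ W_unc
  -- agreement on the root
  obtain ⟨c, hc⟩ := H151.uncountable_fiber (fun α : W => fun i : R =>
    if ∃ ξ, ξ < α ∧ (i : I) ∈ J ξ then
      some (e α (if h : ∃ ξ, ξ < α ∧ (i : I) ∈ J ξ then h.choose else α)) else none) S hS
  set S1 := {α ∈ S | (fun i : R => if ∃ ξ, ξ < α ∧ (i : I) ∈ J ξ then
      some (e α (if h : ∃ ξ, ξ < α ∧ (i : I) ∈ J ξ then h.choose else α)) else none) = c} with hS1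
  obtain ⟨β, hβ⟩ := unc_nonempty hc
  set S2 := S1 ∩ Ioi β with hS2
  have hS2u : ¬ S2.Countable := unc_Ioi hc β
  obtain ⟨α0, hα0⟩ := unc_nonempty hS2u
  have hagree : ∀ α ∈ S2, ∀ i ∈ R, d α i = d α0 i := by
    intro α hα i hi
    have hiF : i ∈ F β := hR1 β hβ.1 hi
    have h1 : (fun i : R => if ∃ ξ, ξ < α ∧ (i : I) ∈ J ξ then
      some (e α (if h : ∃ ξ, ξ < α ∧ (i : I) ∈ J ξ then h.choose else α)) else none) =
      (fun i : R => if ∃ ξ, ξ < α0 ∧ (i : I) ∈ J ξ then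
      some (e α0 (if h : ∃ ξ, ξ < α0 ∧ (i : I) ∈ J ξ then h.choose else α0)) else none) :=
      hα.1.2.trans hα0.1.2.symm
    have h2 := congrFun h1 ⟨i, hi⟩
    simp only at h2
    by_cases h3 : ∃ ξ, ξ < α ∧ i ∈ J ξ
    · by_cases h4 : ∃ ξ, ξ < α0 ∧ i ∈ J ξ
      · rw [if_pos h3, if_pos h4, dif_pos h3, dif_pos h4, Option.some.injEq] at h2
        have h5 : h3.choose = h4.choose := hJd _ _ _ h3.choose_spec.2 h4.choose_spec.2
        rw [hd1 α h3.choose h3.choose_spec.1 ⟨i, h3.choose_spec.2⟩,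
          hd1 α0 h4.choose h4.choose_spec.1 ⟨i, h4.choose_spec.2⟩, h2]
        have key : ∀ (η η' : W) (hη : i ∈ J η) (hη' : i ∈ J η') (n : ℕ), η = η' →
            w η n ⟨i, hη⟩ = w η' n ⟨i, hη'⟩ := by
          rintro η η' hη hη' n rfl
          rfl
        exact key _ _ h3.choose_spec.2 h4.choose_spec.2 _ h5
      · rw [if_pos h3, if_neg h4] at h2
        exact absurd h2 (by simp)
    · by_cases h4 : ∃ ξ, ξ < α0 ∧ i ∈ J ξ
      · rw [if_neg h3, if_pos h4] at h2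
        exact absurd h2 (by simp)
      · rw [hd2 α i ⟨β, hα.2, hiF⟩ fun ξ hξ hi => h3 ⟨ξ, hξ, hi⟩,
          hd2 α0 i ⟨β, hα0.2, hiF⟩ fun ξ hξ hi => h4 ⟨ξ, hξ, hi⟩]
  -- local finiteness at `d α0`
  obtain ⟨N, hN1, hN2, hN3⟩ := hV4 (d α0) (hdD α0)
  obtain ⟨H, hH⟩ := exists_supp hN1 hN2
  -- the indices whose supports meet `H` off the root
  have hfin : {α ∈ S2 | ∃ i ∈ H, i ∈ F α ∧ i ∉ R}.Finite := by
    have : {α ∈ S2 | ∃ i ∈ H, i ∈ F α ∧ i ∉ R} ⊆ ⋃ i ∈ (H : Set I), {α ∈ S2 | i ∈ F α ∧ i ∉ R} := by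
      rintro α ⟨h1, i, h2, h3⟩
      simp only [mem_iUnion]
      exact ⟨i, h2, h1, h3⟩
    refine Set.Finite.subset (H.finite_toSet.biUnion fun i _ => ?_) this
    apply Set.Subsingleton.finite
    rintro α ⟨h1, h2, h3⟩ α' ⟨h1', h2', -⟩
    by_contra hne
    exact h3 (hR2 α h1.1.1 α' h1'.1.1 hne i h2 h2')
  have hS3u : ¬ (S2 \ {α ∈ S2 | ∃ i ∈ H, i ∈ F α ∧ i ∉ R}).Countable := by
    intro h
    apply hS2u
    refine (h.union hfin.countable).mono ?_
    intro x hx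
    by_cases h : x ∈ {α ∈ S2 | ∃ i ∈ H, i ∈ F α ∧ i ∉ R}
    · exact Or.inr h
    · exact Or.inl ⟨hx, h⟩
  have hmem : ∀ α ∈ S2 \ {α ∈ S2 | ∃ i ∈ H, i ∈ F α ∧ i ∉ R},
      a α ∈ {a : D | ∃ x ∈ D, x ∈ V a ∧ x ∈ N} := by
    rintro α ⟨hα, hα'⟩
    have hα'' : ∀ i ∈ H, i ∈ F α → i ∈ R := by
      intro i h1 h2
      by_contra h3
      exact hα' ⟨hα, i, h1, h2, h3⟩
    let L : Set I := (H : Set I) ∪ (F α : Set I)
    have hLc : L.Countable := (H.countable_toSet).union (F α).countable_toSet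
    let x : ∀ i : L, X i := fun i => if (i : I) ∈ F α then d α i else d α0 i
    obtain ⟨y, hyD, hy⟩ : ∃ d ∈ D, ∀ i : L, d i = x i := by
      rcases L.eq_empty_or_nonempty with h | h
      · exact ⟨g, hg, fun i => (eq_empty_iff_forall_notMem.1 h i i.2).elim⟩
      · exact hD L h hLc x
    refine ⟨y, hyD, hd4 α y fun i hi => ?_, hH y fun i hi => ?_⟩
    · rw [hy ⟨i, Or.inr hi⟩]
      simp only [x]
      rw [if_pos hi]
    · rw [hy ⟨i, Or.inl hi⟩]
      simp only [x]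
      by_cases hiF : i ∈ F α
      · rw [if_pos hiF, hagree α hα i (hα'' i hi hiF)]
      · rw [if_neg hiF]
  -- a member of the cover containing uncountably many points
  have hex : ∃ b : D, ¬ {α | a α = b}.Countable := by
    by_contra hcon
    push Not at hcon
    apply hS3u
    refine (hN3.countable.biUnion fun b _ => hcon b).mono ?_
    intro α hα
    simp only [mem_iUnion]
    exact ⟨a α, hmem α hα, rfl⟩
  obtain ⟨b, hb⟩ := hex
  -- large indices
  have hlarge : ∃ α, a α = b ∧ ∀ ξ ∈ Ξ b, ξ < α := by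
    by_contra hcon
    push Not at hcon
    apply hb
    refine ((Ξ b).countable_toSet.biUnion fun ξ _ => W_Iic ξ).mono ?_
    intro α hα
    obtain ⟨ξ, hξ, hle⟩ := hcon α hα
    simp only [mem_iUnion]
    exact ⟨ξ, hξ, hle⟩
  obtain ⟨α, hα1, hα2⟩ := hlarge
  refine hU3 b α hα2 (d α) (hd1 α) ?_
  refine hV3 b (d α) (hdD α) ?_
  rw [← hα1]
  exact hd3 α

end Pool.Agent.Q151.Fill
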