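import Mathlib
import Pool.Agent.Q151.Fill.Basic

/-!
# The slices of a paracompact subspace that fills the countable subproducts
-/

open Set Filter Topology Cardinal

universe u v

namespace Pool.Agent.Q151.Fill

variable {I : Type u} {X : I → Type v} [∀ i, TopologicalSpace (X i)] {D : Set (∀ i, X i)}

/-- the slice over `y` -/
def slice (D : Set (∀ i, X i)) (K : Set I) (y : ∀ i, X i) : Set (∀ i, X i) :=
  {d | d ∈ D ∧ ∀ k ∈ K, d k ∈ closure {y k}}

lemma fills_prescribe (hD : FillsCountable D) (hDne : D.Nonempty) (L : Set I) (hL : L.Countable)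
    (x : ∀ i, X i) : ∃ d ∈ D, ∀ i ∈ L, d i = x i := by
  rcases L.eq_empty_or_nonempty with h | h
  · obtain ⟨g, hg⟩ := hDne
    exact ⟨g, hg, fun i hi => (eq_empty_iff_forall_notMem.1 h i hi).elim⟩
  · obtain ⟨d, hd, hd'⟩ := hD L h hL fun i => x i
    exact ⟨d, hd, fun i hi => hd' ⟨i, hi⟩⟩

/-- Case A: the slices over the points of a suitable countable subproduct are compact. -/
theorem caseA (hD : FillsCountable D) [hp : ParacompactSpace D] {K : Set I} (hK : K.Countable)
    (hgood : ∀ J : Set I, J.Countable → Disjoint K J → ¬ Bad X J) {y : ∀ i, X i} (hy : y ∈ D) :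
    IsCompact (slice D K y) := by
  classical
  have hDne : D.Nonempty := ⟨y, hy⟩
  rw [isCompact_iff_finite_subcover]
  intro ι U hU hcov
  have hcl : IsOpen {d : ∀ i, X i | ∃ k ∈ K, d k ∉ closure {y k}} := by
    have : {d : ∀ i, X i | ∃ k ∈ K, d k ∉ closure {y k}} =
        ⋃ k ∈ K, (fun d : ∀ i, X i => d k) ⁻¹' (closure {y k})ᶜ := by
      ext d; simp
    rw [this]
    exact isOpen_biUnion fun k _ => (isClosed_closure.isOpen_compl).preimage (continuous_apply k)
  have h1 : ∀ a : D, (a : ∀ i, X i) ∈ slice D K y → ∃ i, (a : ∀ i, X i) ∈ U i := by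
    intro a ha
    exact mem_iUnion.1 (hcov ha)
  let U' : D → Set (∀ i, X i) := fun a => if h : (a : ∀ i, X i) ∈ slice D K y then
    U (h1 a h).choose else {d : ∀ i, X i | ∃ k ∈ K, d k ∉ closure {y k}}
  obtain ⟨V, hV1, hV2, hV3, hV4⟩ := exists_refinement (D := D) U' (by
    intro a
    simp only [U']
    split_ifs with h
    · exact hU _
    · exact hcl) (by
    intro x
    refine ⟨x, ?_⟩
    simp only [U']
    split_ifs with h
    · exact (h1 x h).choose_spec
    · by_contra hcon
      apply h
      refine ⟨x.2, fun k hk => ?_⟩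
      by_contra h2
      exact hcon ⟨k, hk, h2⟩)
  -- finitely many members of the refinement meet the slice
  have hfin : {a : D | ∃ x ∈ slice D K y, x ∈ V a}.Finite := by
    by_contra hinf
    have hinf' : {a : D | ∃ x ∈ slice D K y, x ∈ V a}.Infinite := hinf
    let a : ℕ ↪ {a : D | ∃ x ∈ slice D K y, x ∈ V a} := hinf'.natEmbedding
    choose uu huu1 huu2 using fun n => (a n).2
    choose F B hB1 hB2 using fun n => isOpen_pi_iff.1 (hV1 (a n).1) (uu n) (huu2 n)
    let J : Set I := (⋃ n, (F n : Set I)) \ K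
    have hJ : J.Countable := (countable_iUnion fun n => (F n).countable_toSet).mono diff_subset
    have hJK : Disjoint K J := disjoint_sdiff_right
    have hg := hgood J hJ hJK
    unfold Bad at hg
    push Not at hg
    obtain ⟨z, hz⟩ := hg fun n i => uu n i
    obtain ⟨p, hpD, hp1⟩ := fills_prescribe hD hDne (J ∪ K) (hJ.union hK)
      (fun i => if h : i ∈ J then z ⟨i, h⟩ else y i)
    have hpJ : ∀ (i : I) (h : i ∈ J), p i = z ⟨i, h⟩ := by
      intro i h
      rw [hp1 i (Or.inl h), dif_pos h]
    have hpK : ∀ i ∈ K, p i = y i := by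
      intro i h
      rw [hp1 i (Or.inr h), dif_neg]
      exact fun h' => h'.2 h
    obtain ⟨N, hN1, hN2, hN3⟩ := hV4 p hpD
    obtain ⟨H, u, hu1, hu2⟩ := isOpen_pi_iff.1 hN1 p hN2
    have hfreq : ∃ᶠ n in atTop, ∀ i : J, (i : I) ∈ H → uu n i ∈ u i := by
      rw [mapClusterPt_iff_frequently] at hz
      refine hz {v | ∀ i : J, (i : I) ∈ H → v i ∈ u i} ?_
      apply IsOpen.mem_nhds
      · have : {v : ∀ i : J, X i | ∀ i : J, (i : I) ∈ H → v i ∈ u i} =
            ⋂ i ∈ {i : J | (i : I) ∈ H}, (fun v : ∀ i : J, X i => v i) ⁻¹' u i := by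
          ext v; simp
        rw [this]
        refine Set.Finite.isOpen_biInter ?_ fun i hi =>
          ((hu1 i hi).1).preimage (continuous_apply i)
        exact Set.Finite.preimage (Subtype.val_injective.injOn) H.finite_toSet
      · intro i hi
        rw [← hpJ i i.2]
        exact (hu1 i hi).2
    have hsub : {n | ∀ i : J, (i : I) ∈ H → uu n i ∈ u i} ⊆
        (fun n => (a n).1) ⁻¹' {a : D | ∃ x ∈ D, x ∈ V a ∧ x ∈ N} := by
      intro n hn
      obtain ⟨x, hxD, hx⟩ := fills_prescribe hD hDne ((J ∪ K) ∪ (H : Set I))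
        ((hJ.union hK).union H.countable_toSet)
        (fun i => if i ∈ K then y i else if i ∈ J then uu n i else p i)
      refine ⟨x, hxD, hB2 n fun i hi => ?_, hu2 fun i hi => ?_⟩
      · by_cases hiK : i ∈ K
        · rw [hx i (Or.inl (Or.inr hiK)), if_pos hiK]
          obtain ⟨q, hq1, hq2⟩ := mem_closure_iff.1 ((huu1 n).2 i hiK) _ (hB1 n i hi).1
            (hB1 n i hi).2
          rw [mem_singleton_iff] at hq2
          rwa [hq2] at hq1
        · have hiJ : i ∈ J := ⟨mem_iUnion.2 ⟨n, hi⟩, hiK⟩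
          rw [hx i (Or.inl (Or.inl hiJ)), if_neg hiK, if_pos hiJ]
          exact (hB1 n i hi).2
      · rw [hx i (Or.inr hi)]
        by_cases hiK : i ∈ K
        · rw [if_pos hiK, ← hpK i hiK]
          exact (hu1 i hi).2
        · rw [if_neg hiK]
          by_cases hiJ : i ∈ J
          · rw [if_pos hiJ]
            exact hn ⟨i, hiJ⟩ hi
          · rw [if_neg hiJ]
            exact (hu1 i hi).2
    have hinf2 : {n | ∀ i : J, (i : I) ∈ H → uu n i ∈ u i}.Infinite :=
      Nat.frequently_atTop_iff_infinite.1 hfreq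
    refine hinf2 ((Set.Finite.preimage ?_ hN3).subset hsub)
    intro n _ m _ h
    exact a.injective (Subtype.ext h)
  refine ⟨hfin.toFinset.image fun a : D => if h : (a : ∀ i, X i) ∈ slice D K y then
    (h1 a h).choose else (h1 ⟨y, hy⟩ ⟨hy, fun k _ => subset_closure rfl⟩).choose, ?_⟩
  intro x hx
  obtain ⟨a, ha⟩ := hV2 x hx.1
  have haF : a ∈ {a : D | ∃ x ∈ slice D K y, x ∈ V a} := ⟨x, hx, ha⟩
  have h2 := hV3 a x hx.1 ha
  by_cases h : (a : ∀ i, X i) ∈ slice D K y
  · simp only [U', dif_pos h] at h2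
    simp only [mem_iUnion]
    refine ⟨_, Finset.mem_image.2 ⟨a, hfin.mem_toFinset.2 haF, rfl⟩, ?_⟩
    rw [dif_pos h]
    exact h2
  · simp only [U', dif_neg h] at h2
    obtain ⟨k, hk, hk'⟩ := h2
    exact absurd (hx.2 k hk) hk'

/-- the alternative -/
theorem exists_good (hD : FillsCountable D) (hDne : D.Nonempty) [hp : ParacompactSpace D] :
    ∃ K : Set I, K.Countable ∧ ∀ J : Set I, J.Countable → Disjoint K J → ¬ Bad X J := by
  by_contra hcon
  push Not at hcon
  exact caseB hD hDne hcon

theorem countable_noncompact (hD : FillsCountable D) [hp : ParacompactSpace D] :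
    {i | ¬ CompactSpace (X i)}.Countable := by
  classical
  rcases D.eq_empty_or_nonempty with hE | hDne
  · have : {i | ¬ CompactSpace (X i)} = ∅ := by
      rw [eq_empty_iff_forall_notMem]
      intro i hi
      have : IsEmpty (X i) := by
        refine ⟨fun x => ?_⟩
        obtain ⟨d, hd, -⟩ := hD {i} (singleton_nonempty i) (countable_singleton i)
          (fun j => cast (congrArg X (mem_singleton_iff.1 j.2).symm) x)
        rw [hE] at hd
        exact hd
      exact hi inferInstance
    rw [this]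
    exact countable_empty
  · obtain ⟨K, hK, hgood⟩ := exists_good hD hDne
    refine hK.mono fun i hi => ?_
    by_contra hiK
    apply hi
    obtain ⟨y, hy⟩ := hDne
    have hc := (caseA hD hK hgood hy).image (continuous_apply i)
    refine ⟨?_⟩
    convert hc
    refine (eq_univ_of_forall fun x => ?_).symm
    obtain ⟨d, hd, hd'⟩ := fills_prescribe hD ⟨y, hy⟩ (insert i K) (hK.insert i)
      (Function.update y i x)
    refine ⟨d, ⟨hd, fun k hk => ?_⟩, ?_⟩
    · rw [hd' k (mem_insert_of_mem _ hk), Function.update_of_ne (by rintro rfl; exact hiK hk)]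
      exact subset_closure rfl
    · change d i = x
      rw [hd' i (mem_insert _ _), Function.update_self]

end Pool.Agent.Q151.Fill
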