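import Mathlib
import Pool.Agent.Q151.Fill.CaseA

/-!
# Paracompact subspaces filling the countable subproducts: the factors are paracompact
-/

open Set Filter Topology

universe u v

namespace Pool.Agent.Q151.Fill

variable {I : Type u} {X : I → Type v} [∀ i, TopologicalSpace (X i)] {D : Set (∀ i, X i)}

/-- the factors are regular -/
lemma regular (hD : FillsCountable D) (hDne : D.Nonempty) [hr : RegularSpace D] (i : I) :
    RegularSpace (X i) := by
  classical
  refine RegularSpace.of_exists_mem_nhds_isClosed_subset fun x s hs => ?_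
  obtain ⟨O, hOs, hO, hxO⟩ := mem_nhds_iff.1 hs
  obtain ⟨y, hy⟩ := hDne
  obtain ⟨d, hdD, hd⟩ := fills_prescribe hD ⟨y, hy⟩ {i} (countable_singleton i)
    (Function.update y i x)
  have hdi : d i = x := by rw [hd i rfl, Function.update_self]
  have h1 : ((fun p : D => (p : ∀ i, X i) i) ⁻¹' O) ∈ 𝓝 (⟨d, hdD⟩ : D) := by
    refine (hO.preimage ((continuous_apply i).comp continuous_subtype_val)).mem_nhds ?_
    change d i ∈ O
    rw [hdi]; exact hxO
  obtain ⟨t, ht, htc, htO⟩ := exists_mem_nhds_isClosed_subset h1
  obtain ⟨t', ht't, ht', hdt'⟩ := mem_nhds_iff.1 ht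
  obtain ⟨P, hP, rfl⟩ := isOpen_induced_iff.1 ht'
  obtain ⟨F, u, hu, hsub⟩ := isOpen_pi_iff.1 hP d hdt'
  -- an open set around `x`
  let V : Set (X i) := if i ∈ F then u i else univ
  have hV : IsOpen V := by
    simp only [V]; split_ifs with h
    · exact (hu i h).1
    · exact isOpen_univ
  have hxV : x ∈ V := by
    simp only [V]; split_ifs with h
    · rw [← hdi]; exact (hu i h).2
    · trivial
  refine ⟨closure V, mem_of_superset (hV.mem_nhds hxV) subset_closure, isClosed_closure,
    fun z hz => hOs ?_⟩
  obtain ⟨p, hpD, hp⟩ := fills_prescribe hD ⟨y, hy⟩ (insert i (F : Set I))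
    (F.countable_toSet.insert i) (Function.update d i z)
  have hpi : p i = z := by rw [hp i (mem_insert _ _), Function.update_self]
  have hpt : (⟨p, hpD⟩ : D) ∈ t := by
    rw [← htc.closure_eq, mem_closure_iff_nhds]
    intro N hN
    obtain ⟨N', hN'N, hN', hpN'⟩ := mem_nhds_iff.1 hN
    obtain ⟨Q, hQ, rfl⟩ := isOpen_induced_iff.1 hN'
    obtain ⟨H, v, hv, hsub'⟩ := isOpen_pi_iff.1 hQ p hpN'
    let V' : Set (X i) := if i ∈ H then v i else univ
    have hV' : IsOpen V' := by
      simp only [V']; split_ifs with h
      · exact (hv i h).1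
      · exact isOpen_univ
    have hzV' : z ∈ V' := by
      simp only [V']; split_ifs with h
      · rw [← hpi]; exact (hv i h).2
      · trivial
    obtain ⟨a, haV', haV⟩ := mem_closure_iff.1 hz V' hV' hzV'
    obtain ⟨q, hqD, hq⟩ := fills_prescribe hD ⟨y, hy⟩ ((insert i (F : Set I)) ∪ (H : Set I))
      ((F.countable_toSet.insert i).union H.countable_toSet)
      (Function.update p i a)
    have hqi : q i = a := by rw [hq i (Or.inl (mem_insert _ _)), Function.update_self]
    refine ⟨⟨q, hqD⟩, hN'N (hsub' fun j hj => ?_), ht't (hsub fun j hj => ?_)⟩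
    · by_cases hji : j = i
      · subst hji
        change q j ∈ v j
        rw [hqi]
        simp only [V', if_pos (Finset.mem_coe.1 hj)] at haV'
        exact haV'
      · change q j ∈ v j
        rw [hq j (Or.inr hj), Function.update_of_ne hji]
        exact (hv j hj).2
    · by_cases hji : j = i
      · subst hji
        change q j ∈ u j
        rw [hqi]
        simp only [V, if_pos (Finset.mem_coe.1 hj)] at haV
        exact haV
      · change q j ∈ u j
        rw [hq j (Or.inl (mem_insert_of_mem _ hj)), Function.update_of_ne hji,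
          hp j (mem_insert_of_mem _ hj), Function.update_of_ne hji]
        exact (hu j hj).2
  have := htO hpt
  change p i ∈ O at this
  rwa [hpi] at this

theorem eq_univ_of (hT : ∀ i, T1Space (X i)) (hD : FillsCountable D) (hDne : D.Nonempty)
    [hp : ParacompactSpace D] [T2Space D] : (∀ i, T2Space (X i)) ∧ D = Set.univ := by
  classical
  have h4 : NormalSpace D := inferInstance
  have h5 : T4Space D := ⟨⟩
  have hreg : ∀ i, RegularSpace (X i) := regular hD hDne
  have hT2 : ∀ i, T2Space (X i) := by
    intro i
    have := hT i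
    have := hreg i
    infer_instance
  refine ⟨hT2, ?_⟩
  obtain ⟨K, hK, hgood⟩ := exists_good hD hDne
  rw [eq_univ_iff_forall]
  intro x
  obtain ⟨y, hyD, hy⟩ := fills_prescribe hD hDne K hK x
  have hc := (caseA hD hK hgood hyD).isClosed
  have hx : x ∈ slice D K y := by
    rw [← hc.closure_eq, mem_closure_iff_nhds]
    intro N hN
    obtain ⟨N', hN'N, hN', hxN'⟩ := mem_nhds_iff.1 hN
    obtain ⟨F, u, hu, hsub⟩ := isOpen_pi_iff.1 hN' x hxN'
    obtain ⟨z, hzD, hz⟩ := fills_prescribe hD hDne (K ∪ (F : Set I))
      (hK.union F.countable_toSet) x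
    refine ⟨z, hN'N (hsub fun i hi => ?_), hzD, fun k hk => ?_⟩
    · rw [hz i (Or.inr hi)]
      exact (hu i hi).2
    · rw [hz k (Or.inl hk), ← hy k hk]
      exact subset_closure rfl
  exact hx.1

/-- Let `X i`, `i ∈ I`, be `T₁` spaces and let `D ⊆ ∏ X i` be a subspace that fills all countable
subproducts and is paracompact (Hausdorff). Then each `X i` is paracompact Hausdorff. Moreover
`D = ∏ X i` (if `D` is nonempty) and all but countably many factors are compact. -/
theorem countable_paracompact {I : Type u} {X : I → Type v} [∀ i, TopologicalSpace (X i)]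
    (hT : ∀ i, T1Space (X i)) (D : Set (∀ i, X i)) (hD : FillsCountable D)
    (hp : ParacompactSpace D) (h2 : T2Space D) :
    (∀ i, ParacompactSpace (X i) ∧ T2Space (X i)) ∧ (D.Nonempty → D = Set.univ) ∧
      {i | ¬ CompactSpace (X i)}.Countable := by
  classical
  refine ⟨?_, fun h => (eq_univ_of hT hD h).2, countable_noncompact hD⟩
  intro i
  rcases D.eq_empty_or_nonempty with hE | hDne
  · have : IsEmpty (X i) := by
      refine ⟨fun x => ?_⟩
      obtain ⟨d, hd, -⟩ := hD {i} (singleton_nonempty i) (countable_singleton i)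
        (fun j => cast (congrArg X (mem_singleton_iff.1 j.2).symm) x)
      rw [hE] at hd
      exact hd
    exact ⟨inferInstance, inferInstance⟩
  · obtain ⟨hT2, hU⟩ := eq_univ_of hT hD hDne
    refine ⟨?_, hT2 i⟩
    obtain ⟨y, -⟩ := hDne
    subst hU
    have h3 : ParacompactSpace (∀ i, X i) :=
      (Homeomorph.Set.univ (∀ i, X i)).paracompactSpace_iff.1 hp
    exact (isClosedEmbedding_update y i).paracompactSpace

end Pool.Agent.Q151.Fill
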